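import Pool.Agent.Helper53.UW.Num
import Pool.Agent.Helper81.Sus3.Fin

/-!
# PROJECT UR3 (MP_c578c8_lc), NBS: machines with messages and described memory, one part
-/

namespace Pool.Agent.Helper66.UW

open Pool.Agent.Helper65.LinSpace Pool.Agent.Helper78.Mpc Pool.Agent.Helper28.Ram Finset Filter
open Pool.Agent.Helper65.BR (bT lT)
open Pool.Agent.Helper53.UR (KU)
open Pool.Agent.Helper53.UV (eV)
open Pool.Agent.Helper28.Sus (chs lt_ne)
open Pool.Agent.Helper81.Sus2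
open Pool.Agent.Helper81.Sus3 (vN v0 vf edge Exact)
open Pool.Agent.Helper53.UW

/-! ### Soundness -/

theorem soundS (hF : FwOK) (hW : PMW_stmt) (H : Pool.Agent.Helper81.Sus3.Parts) {A : NBM} {w y : List Bool} {c e T : ℕ}
    (hP : Cod A w y (prmW c e (num w) (num y) T)) (h : accS c e (num w) (num y) T ≠ 0) :
    ∃ g r, A.AcceptsAt w y g r := by
  unfold accS at h
  have h1 := right_ne_zero_of_mul h
  have h4 : (prmW c e (num w) (num y) T).cq 1 ≠ 0 := lt_ne.1 (left_ne_zero_of_mul h1)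
  have h5 := hW.sv c e (num w) (num y) T
  obtain ⟨g, t, ht⟩ := H.eds A w y _ hP h5 (FW c e (num w) (num y) T)
    (fun c' p d p' Y τ a _ _ hf =>
      ⟨_, ((hF c e (num w) (num y) T c' p d p' Y τ a).1 hf).2⟩)
    1 0 _ (right_ne_zero_of_mul h1) (rep_start hP h4)
  rcases ht with ⟨_, ht⟩ | ⟨h6, _⟩
  · exact ⟨g, t, ht⟩
  · exact absurd rfl h6

/-! ### Completeness -/

theorem msgs_le (A : NBM) (w y : List Bool) (g : ℕ → Bool) (t t' : ℕ) :
    A.msgs w y g t t' ≤ t' - t := by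
  unfold NBM.msgs
  calc {i : ℕ | t ≤ i ∧ i < t' ∧ A.msg (A.conf w y g (i + 1)).1}.ncard
      ≤ (Set.Ico t t').ncard :=
        Set.ncard_le_ncard (fun i hi => ⟨hi.1, hi.2.1⟩) (Set.finite_Ico t t')
    _ = t' - t := by
        rw [← Finset.coe_Ico, Set.ncard_coe_finset, Nat.card_Ico]

theorem completeS (hF : FwOK) (hW : PMW_stmt) (H : Pool.Agent.Helper81.Sus3.Parts) {A : NBM} {E : Decomp}
    {w y : List Bool} {c e T : ℕ}
    (hP : Cod A w y (prmW c e (num w) (num y) T))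
    (hE : CodE E (prmW c e (num w) (num y) T))
    {g : ℕ → Bool} {r s a x : ℕ}
    (hacc : A.AcceptsAt w y g r) (hfit : A.Fits w y g r s a)
    (hg : A.guesses w y g 0 r ≤ c * w.length)
    (hst : ∀ t t' : ℕ, t ≤ t' → t' ≤ r →
      (∀ u, t < u → u < t' → ¬A.Short E w y g s a (c * w.length) 0 [] u) → t' ≤ t + x)
    (q1 : okW w.length T = 1) (q2 : bT w.length T 0 = s + 5 * ll w.length)
    (q3 : bT w.length T 1 = a)
    (q4 : 2 + 2 ^ (s + 1) * ((c * w.length + 1) * (x + 1)) ≤ 2 ^ (s + 5 * ll w.length + 1))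
    (q5 : x < 2 ^ (s + 5 * ll w.length))
    (q6 : x + 1 ≤ KU w.length T * 2 ^ eV w.length T) :
    accS c e (num w) (num y) T ≠ 0 := by
  have hlog : Nat.log 2 (num w) = w.length := Pool.Agent.Helper65.LinSpace.log_num w
  have h5 := hW.sv c e (num w) (num y) T
  have eS : (prmW c e (num w) (num y) T).S = s := by
    show okW (Nat.log 2 (num w)) T * (bT (Nat.log 2 (num w)) T 0 -
      5 * ll (Nat.log 2 (num w))) = s
    rw [hlog, q1, q2, one_mul, Nat.add_sub_cancel]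
  have eZ : (prmW c e (num w) (num y) T).Z = a := by
    show okW (Nat.log 2 (num w)) T * bT (Nat.log 2 (num w)) T 1 = a
    rw [hlog, q1, q3, one_mul]
  have eu : (prmW c e (num w) (num y) T).u = c * w.length := by
    show c * Nat.log 2 (num w) = c * w.length
    rw [hlog]
  have eV : (prmW c e (num w) (num y) T).V = s + 5 * ll w.length := by
    show okW (Nat.log 2 (num w)) T * bT (Nat.log 2 (num w)) T 0 = _
    rw [hlog, q1, q2, one_mul]
  have hF1 := hF c e (num w) (num y) T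
  unfold accS
  rw [hlog] at hF1 ⊢
  rw [q1, one_mul]
  generalize prmW c e (num w) (num y) T = P at *
  rw [← eS, ← eZ] at hfit hst
  rw [← eu] at hst hg
  have hstart : A.start.length ≤ P.S := (hfit 0 (Nat.zero_le _)).1
  have hcq : P.cq 1 ≠ 0 := by
    unfold Prm.cq
    rw [eq01, if_pos rfl, ifz_ne one_ne_zero, hP.hst, capN_num hstart]
    exact (num_pos _).ne'
  have hk : ∀ t j, KnownN A w y g P 1 0 t j := by
    intro t j
    refine Or.inr (Or.inl ?_)
    rw [cl_one]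
    exact one_ne_zero
  have hshort : ∀ u ≤ r, A.Short E w y g P.S P.Z P.u 0 [] u →
      ∃ e < 2 + 2 ^ (P.S + 1) * 2 ^ (P.u + 1), Exact A w y g P 1 0 u e := by
    rintro u hu ⟨d, hd1, hd2⟩
    have hq := (hfit u hu).1
    refine ⟨cn P (A.conf w y g u).1 d, ?_, ?_, cq_cn hq, fun j hj hj2 => ⟨fun _ => ?_,
      fun hk' => ?_⟩⟩
    · have h1 := num_lt' hq
      have h2 := num_lt' hd1
      have h3 : num (A.conf w y g u).1 + 2 ^ (P.S + 1) * num d < 2 ^ (P.S + 1) * (num d + 1) := by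
        rw [mul_add, mul_one]
        omega
      have h4 : 2 ^ (P.S + 1) * (num d + 1) ≤ 2 ^ (P.S + 1) * 2 ^ (P.u + 1) :=
        Nat.mul_le_mul_left _ h2
      unfold cn
      omega
    · unfold cn
      omega
    · exact (cl_says H.dec hP hE hq j).1 _ ((hd2 j _ hj hj2).2 ⟨Or.inl rfl, rfl⟩)
    · exact absurd (hk u j) hk'
  refine mul_ne_zero (lt_ne.2 hcq) ?_
  refine H.edc A w y P hP h5 (FW c e (num w) (num y) T) x x g r 0 r 1 0 ?_ ?_ (Nat.zero_le _)
    le_rfl hfit hg ?_ ?_ one_ne_zero (rep_start hP hcq) (fun t _ _ => hk t _) ?_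
    (fun _ => ⟨rfl, hacc⟩) (fun h0 => absurd rfl h0)
  · exact fun c' p d p' Y τ a _ _ hf => ⟨_, ((hF1 c' p d p' Y τ a).1 hf).2⟩
  · intro c' p d p' Y τ a' _ _ hT' hτ' _
    refine (hF1 c' p d p' Y τ a').2 ⟨by rw [q1]; exact one_ne_zero, hT' _ ?_⟩
    omega
  · rw [eS, eu, eV]
    exact q4
  · rw [eV]
    exact q5
  · intro t t' _ ht2 ht3 hno
    have h6 := hst t t' ht2 ht3 fun u hu1 hu2 hs => by
      obtain ⟨e', he', he2⟩ := hshort u (by omega) hs
      exact hno u hu1 hu2 e' he' he2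
    exact ⟨(msgs_le A w y g t t').trans (by omega), h6⟩

theorem gNBS : Pool.Agent.Helper53.UW.GoalNBS := by
  intro hF hW H hPA c A E C
  obtain ⟨e, n₀, he⟩ := hW.cod H.cod A E
  obtain ⟨n₁, hn₁⟩ := eventually_atTop.1 (hPA C c)
  refine ⟨e, n₀ + n₁, fun w y hw => ⟨fun T _ hT => soundS hF hW H (he w y (by omega) c T).1 hT,
    ?_⟩⟩
  rintro ⟨g, r, s, a, x, hacc, hfit, hg, hst, b1, b2⟩
  obtain ⟨T, hT, q1, q2, q3, q4, q5, q6⟩ := hn₁ w.length (by omega) s a x b1 b2
  refine ⟨T, ?_, completeS hF hW H (he w y (by omega) c T).1 (he w y (by omega) c T).2 hacc hfit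
    hg hst q1 q2 q3 q4 q5 q6⟩
  unfold NFS
  rw [Pool.Agent.Helper65.LinSpace.log_num w]
  exact hT

end Pool.Agent.Helper66.UW
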